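import Pool.Agent.H73.KG.Stmts

/-! # Project KG, module ZSM: the tilted integrals are smooth -/

set_option autoImplicit false

open MeasureTheory Set Filter Topology
open scoped ContDiff

namespace Pool.Agent.H73.KG

open Pool.Agent.H84 Pool.Agent.H84.Sym Pool.Agent.H84.Sym.P2x Pool.Agent.H19.KL

section ZSM

variable {E : Type} [NormedAddCommGroup E] [InnerProductSpace ℝ E]

/-- the linear form `(σ, η) ↦ ⟨η, x⟩ - σ |x|² / 2` -/
private noncomputable def zsL (x : E) : ℝ × E →L[ℝ] ℝ :=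
  (innerSL ℝ x).comp (ContinuousLinearMap.snd ℝ ℝ E) -
    (‖x‖ ^ 2 / 2) • ContinuousLinearMap.fst ℝ ℝ E

private theorem zsL_apply (x : E) (p : ℝ × E) :
    zsL x p = inner ℝ p.2 x - p.1 * ‖x‖ ^ 2 / 2 := by
  unfold zsL
  simp only [sub_apply, smul_apply, ContinuousLinearMap.comp_apply, innerSL_apply_apply,
    ContinuousLinearMap.coe_snd', ContinuousLinearMap.coe_fst', smul_eq_mul]
  rw [real_inner_comm]
  ring

private theorem zsL_norm (x : E) : ‖zsL x‖ ≤ ‖x‖ + ‖x‖ ^ 2 / 2 := by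
  apply ContinuousLinearMap.opNorm_le_bound _ (by positivity)
  intro p
  rw [zsL_apply, Real.norm_eq_abs]
  have h1 : |inner ℝ p.2 x| ≤ ‖p.2‖ * ‖x‖ := abs_real_inner_le_norm _ _
  have h2 : ‖p.2‖ ≤ ‖p‖ := norm_snd_le p
  have h3 : |p.1| ≤ ‖p‖ := norm_fst_le p
  have h4 : |p.1 * ‖x‖ ^ 2 / 2| = |p.1| * (‖x‖ ^ 2 / 2) := by
    rw [mul_div_assoc, abs_mul, abs_of_nonneg (by positivity : 0 ≤ ‖x‖ ^ 2 / 2)]
  calc |inner ℝ p.2 x - p.1 * ‖x‖ ^ 2 / 2| ≤ |inner ℝ p.2 x| + |p.1 * ‖x‖ ^ 2 / 2| := abs_sub _ _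
    _ ≤ ‖p.2‖ * ‖x‖ + |p.1| * (‖x‖ ^ 2 / 2) := by rw [h4]; linarith
    _ ≤ ‖p‖ * ‖x‖ + ‖p‖ * (‖x‖ ^ 2 / 2) := by gcongr
    _ = _ := by ring

private theorem zsL_cont : Continuous (fun x : E => zsL x) := by
  unfold zsL
  have h1 : Continuous (fun x : E => (innerSL ℝ x).comp (ContinuousLinearMap.snd ℝ ℝ E)) :=
    (innerSL ℝ (E := E)).continuous.clm_comp continuous_const
  have h2 : Continuous (fun x : E => (‖x‖ ^ 2 / 2) • ContinuousLinearMap.fst ℝ ℝ E) := by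
    have h3 : Continuous (fun x : E => ‖x‖ ^ 2 / 2) := by fun_prop
    exact h3.smul continuous_const
  exact h1.sub h2

/-- domination of the integrands -/
private theorem zs_dom {U : E → ℝ} {t C : ℝ} (hU : Pot U t C) {A B R s₁ : ℝ} (hA : 0 ≤ A)
    (hs₁ : -t < s₁) :
    ∃ M : ℝ, 0 ≤ M ∧ ∀ (s : ℝ) (θ y : E) (r : ℝ), s₁ ≤ s → ‖θ‖ ≤ R →
      r ≤ A * Real.exp (B * ‖y‖) →
      r * Real.exp (-tp U s θ y) ≤ M * Real.exp (-((t + s₁) / 4) * ‖y‖ ^ 2) := by
  set k : ℝ := t + s₁ with hk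
  have hkp : 0 < k := by linarith
  set G := ‖fderiv ℝ U 0‖ with hG
  refine ⟨A * Real.exp (-U 0 + (|B| + |R| + G) ^ 2 / k), by positivity,
    fun s θ y r hs hθ hr => ?_⟩
  have hl := pot_lower hU y
  have hl2 : -(G * ‖y‖) ≤ fderiv ℝ U 0 y := by
    have := (fderiv ℝ U 0).le_opNorm y
    have h2 := neg_abs_le (fderiv ℝ U 0 y)
    rw [Real.norm_eq_abs] at this
    linarith
  have hBx : B * ‖y‖ ≤ |B| * ‖y‖ := mul_le_mul_of_nonneg_right (le_abs_self _) (norm_nonneg _)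
  have hth : inner ℝ θ y ≤ |R| * ‖y‖ := by
    refine (real_inner_le_norm θ y).trans ?_
    exact mul_le_mul_of_nonneg_right (hθ.trans (le_abs_self R)) (norm_nonneg _)
  have hss : s₁ * ‖y‖ ^ 2 ≤ s * ‖y‖ ^ 2 := mul_le_mul_of_nonneg_right hs (sq_nonneg _)
  have hsq : (|B| + |R| + G) * ‖y‖ ≤ k / 4 * ‖y‖ ^ 2 + (|B| + |R| + G) ^ 2 / k := by
    have h1 : 0 ≤ (k / 2 * ‖y‖ - (|B| + |R| + G)) ^ 2 / k := by positivity
    have h2 : (k / 2 * ‖y‖ - (|B| + |R| + G)) ^ 2 / k =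
        k / 4 * ‖y‖ ^ 2 + (|B| + |R| + G) ^ 2 / k - (|B| + |R| + G) * ‖y‖ := by
      field_simp
      ring
    linarith
  have hkk : k * ‖y‖ ^ 2 = t * ‖y‖ ^ 2 + s₁ * ‖y‖ ^ 2 := by rw [hk]; ring
  calc r * Real.exp (-tp U s θ y) ≤ (A * Real.exp (B * ‖y‖)) * Real.exp (-tp U s θ y) :=
        mul_le_mul_of_nonneg_right hr (Real.exp_pos _).le
    _ = A * Real.exp (-tp U s θ y + B * ‖y‖) := by rw [Real.exp_add]; ring
    _ ≤ A * Real.exp ((-U 0 + (|B| + |R| + G) ^ 2 / k) + (-(k / 4) * ‖y‖ ^ 2)) := by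
        apply mul_le_mul_of_nonneg_left _ hA
        apply Real.exp_le_exp.2
        unfold tp
        nlinarith
    _ = A * Real.exp (-U 0 + (|B| + |R| + G) ^ 2 / k) * Real.exp (-(k / 4) * ‖y‖ ^ 2) := by
        rw [Real.exp_add]; ring

private theorem zs_tp_cont {U : E → ℝ} {t C : ℝ} (hU : Pot U t C) (s : ℝ) (θ : E) :
    Continuous (tp U s θ) := by
  have hUc : Continuous U := hU.smooth.continuous
  unfold tp
  have h1 : Continuous (fun x : E => s * ‖x‖ ^ 2 / 2) := by fun_prop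
  have h2 : Continuous (fun x : E => (inner ℝ θ x : ℝ)) := by fun_prop
  exact (hUc.add h1).sub h2

omit [InnerProductSpace ℝ E] in
private theorem zs_gc_norm : GC (fun x : E => ‖x‖) := ⟨continuous_norm, Gr.nrm⟩

private theorem zs_gc_lin (σ : ℝ) (η : E) :
    GC (fun x : E => (inner ℝ η x : ℝ) - σ * ‖x‖ ^ 2 / 2) := by
  have h1 : GC (fun x : E => (inner ℝ η x : ℝ)) := by
    refine ⟨by fun_prop, Gr.of_le (Gr.mul (GC.const (H := E) ‖η‖).2 (Gr.nrm (H := E))) fun x => ?_⟩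
    rw [abs_of_nonneg (mul_nonneg (norm_nonneg η) (norm_nonneg x))]
    exact abs_real_inner_le_norm η x
  have h2 : GC (fun x : E => σ * ‖x‖ ^ 2 / 2) := by
    have h3 := (GC.const (H := E) (σ / 2)).mul (zs_gc_norm (E := E)).sq
    have e : (fun x : E => σ * ‖x‖ ^ 2 / 2) = fun x : E => σ / 2 * ‖x‖ ^ 2 := by
      ext x; ring
    rw [e]
    exact h3
  exact h1.sub h2

variable [FiniteDimensional ℝ E] [MeasurableSpace E] [BorelSpace E]

/-- integrability of vector valued integrands -/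
private theorem zs_int {U : E → ℝ} {t C : ℝ} (hU : Pot U t C) {H : Type*} [NormedAddCommGroup H]
    [NormedSpace ℝ H] {F : E → H} (hF : Continuous F) (hg : Gr (fun x => ‖F x‖)) {s : ℝ}
    (hs : -t < s) (θ : E) : Integrable (fun x => Real.exp (-tp U s θ x) • F x) := by
  obtain ⟨A, B, hA, hB, h⟩ := Gr.norm hg
  obtain ⟨M, hM, hd⟩ := zs_dom hU (A := A) (B := B) (R := ‖θ‖) (s₁ := s) hA hs
  have hi : Integrable (fun x : E => M * Real.exp (-((t + s) / 4) * ‖x‖ ^ 2)) :=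
    (integrable_gauss (by linarith)).const_mul M
  have hc : Continuous (fun x => Real.exp (-tp U s θ x) • F x) :=
    (Real.continuous_exp.comp (zs_tp_cont hU s θ).neg).smul hF
  refine hi.mono' hc.aestronglyMeasurable (Eventually.of_forall fun x => ?_)
  rw [norm_smul, Real.norm_eq_abs, abs_of_pos (Real.exp_pos _), mul_comm]
  refine hd s θ x _ le_rfl le_rfl ?_
  have := h x
  rwa [abs_of_nonneg (norm_nonneg _)] at this

omit [FiniteDimensional ℝ E] [MeasurableSpace E] [BorelSpace E] in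
private theorem zs_gr_FL {F : E → ℝ} (hF : GC F) : Gr (fun x => ‖F x • zsL x‖) := by
  have h1 : GC (fun x : E => |F x| * (‖x‖ + 1 / 2 * ‖x‖ ^ 2)) :=
    hF.abs.mul (zs_gc_norm.add ((GC.const (1 / 2)).mul zs_gc_norm.sq))
  refine Gr.of_le h1.2 fun x => ?_
  have h0 : (0:ℝ) ≤ |F x| * (‖x‖ + 1 / 2 * ‖x‖ ^ 2) := by positivity
  rw [abs_of_nonneg h0]
  refine (abs_of_nonneg (norm_nonneg (F x • zsL x))).le.trans ?_
  have h2 := zsL_norm x
  have h3 : ‖x‖ + ‖x‖ ^ 2 / 2 = ‖x‖ + 1 / 2 * ‖x‖ ^ 2 := by ring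
  rw [← h3]
  refine (ContinuousLinearMap.opNorm_smul_le (F x) (zsL x)).trans ?_
  rw [Real.norm_eq_abs]
  gcongr

private theorem zs_deriv {U : E → ℝ} {t C : ℝ} (hU : Pot U t C) {F : E → ℝ} (hF : GC F) {s : ℝ}
    (hs : -t < s) (θ : E) : HasFDerivAt (fun p : ℝ × E => ZF U p.1 p.2 F)
      (∫ x, Real.exp (-tp U s θ x) • (F x • zsL x)) (s, θ) := by
  set s₁ : ℝ := (s - t) / 2 with hs₁
  have hs₁t : -t < s₁ := by rw [hs₁]; linarith
  have hs₁s : s₁ < s := by rw [hs₁]; linarith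
  obtain ⟨A, B, hA, hB, h⟩ := Gr.norm (zs_gr_FL hF)
  obtain ⟨M, hM, hd⟩ := zs_dom hU (A := A) (B := B) (R := ‖θ‖ + 1) (s₁ := s₁) hA hs₁t
  have hi : Integrable (fun x : E => M * Real.exp (-((t + s₁) / 4) * ‖x‖ ^ 2)) :=
    (integrable_gauss (by linarith)).const_mul M
  have hFL : Continuous (fun x => F x • zsL x) := hF.1.smul zsL_cont
  have hnb : Ioi s₁ ×ˢ Metric.ball θ 1 ∈ 𝓝 (s, θ) :=
    prod_mem_nhds (Ioi_mem_nhds hs₁s) (Metric.ball_mem_nhds θ one_pos)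
  refine hasFDerivAt_integral_of_dominated_of_fderiv_le
    (F := fun (p : ℝ × E) (x : E) => F x * Real.exp (-tp U p.1 p.2 x))
    (F' := fun (p : ℝ × E) (x : E) => Real.exp (-tp U p.1 p.2 x) • (F x • zsL x))
    (bound := fun x : E => M * Real.exp (-((t + s₁) / 4) * ‖x‖ ^ 2)) hnb ?_ ?_ ?_ ?_ hi ?_
  · refine Eventually.of_forall fun p => ?_
    exact (hF.1.mul (Real.continuous_exp.comp (zs_tp_cont hU p.1 p.2).neg)).aestronglyMeasurable
  · have h1 := zs_int hU (H := ℝ) hF.1 (by simpa [Real.norm_eq_abs] using hF.abs.2) hs θ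
    refine h1.congr (Eventually.of_forall fun x => ?_)
    simp only [smul_eq_mul]
    ring
  · exact (zs_int hU hFL (zs_gr_FL hF) hs θ).aestronglyMeasurable
  · refine Eventually.of_forall fun x p hp => ?_
    rw [norm_smul, Real.norm_eq_abs, abs_of_pos (Real.exp_pos _), mul_comm]
    refine hd p.1 p.2 x _ (le_of_lt hp.1) ?_ ?_
    · have h1 : ‖p.2 - θ‖ < 1 := by
        rw [← dist_eq_norm]; exact hp.2
      have h2 := norm_sub_norm_le p.2 θ
      linarith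
    · exact (le_abs_self _).trans (h x)
  · refine Eventually.of_forall fun x p _ => ?_
    have h1 : HasFDerivAt (fun p : ℝ × E => -tp U p.1 p.2 x) (zsL x) p := by
      have e : (fun p : ℝ × E => -tp U p.1 p.2 x) = fun p : ℝ × E => -U x + zsL x p := by
        ext q
        rw [zsL_apply]
        unfold tp
        ring
      rw [e]
      exact (zsL x).hasFDerivAt.const_add (-U x)
    have h2 := (h1.exp).const_mul (F x)
    refine h2.congr_fderiv (ContinuousLinearMap.ext fun w => ?_)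
    simp only [smul_apply, smul_eq_mul]
    ring

private theorem zs_fderiv {U : E → ℝ} {t C : ℝ} (hU : Pot U t C) {F : E → ℝ} (hF : GC F) {s : ℝ}
    (hs : -t < s) (θ : E) (q : ℝ × E) : fderiv ℝ (fun p : ℝ × E => ZF U p.1 p.2 F) (s, θ) q =
      ZF U s θ (fun x => F x * (inner ℝ q.2 x - q.1 * ‖x‖ ^ 2 / 2)) := by
  rw [(zs_deriv hU hF hs θ).fderiv, ContinuousLinearMap.integral_apply
    (zs_int hU (hF.1.smul zsL_cont) (zs_gr_FL hF) hs θ)]
  unfold ZF
  refine integral_congr_ae (Eventually.of_forall fun x => ?_)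
  simp only [smul_apply, smul_eq_mul]
  rw [zsL_apply]
  ring

private theorem zs_contDiff {U : E → ℝ} {t C : ℝ} (hU : Pot U t C) (n : ℕ) :
    ∀ F : E → ℝ, GC F → ContDiffOn ℝ n (fun p : ℝ × E => ZF U p.1 p.2 F) (Ioi (-t) ×ˢ univ) := by
  have hopen : IsOpen (Ioi (-t) ×ˢ (univ : Set E)) := isOpen_Ioi.prod isOpen_univ
  induction n with
  | zero =>
    intro F hF
    rw [Nat.cast_zero, contDiffOn_zero]
    intro p hp
    exact (zs_deriv hU hF (s := p.1) hp.1 p.2).continuousAt.continuousWithinAt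
  | succ n ih =>
    intro F hF
    rw [Nat.cast_succ, contDiffOn_succ_iff_fderiv_of_isOpen hopen]
    refine ⟨fun p hp => (zs_deriv hU hF (s := p.1) hp.1 p.2).differentiableAt.differentiableWithinAt,
      by simp, ?_⟩
    rw [contDiffOn_clm_apply]
    intro q
    refine (ih _ (hF.mul (zs_gc_lin q.1 q.2))).congr fun p hp => ?_
    exact zs_fderiv hU hF (s := p.1) hp.1 p.2 q

end ZSM

theorem zsm_thm (E : Type) [NormedAddCommGroup E] [InnerProductSpace ℝ E]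
    [FiniteDimensional ℝ E] [MeasurableSpace E] [BorelSpace E] : ZSMStmt E := by
  intro U t C hU F hF
  refine ⟨?_, fun s θ hs σ η => zs_fderiv hU hF hs θ (σ, η)⟩
  rw [contDiffOn_infty]
  exact fun n => zs_contDiff hU n F hF

end Pool.Agent.H73.KG
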