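import Pool.Agent.H73.KG.Stmts2

/-! # Project KG, module T1M: third moments against a matrix of small rank -/

set_option autoImplicit false

open MeasureTheory Set Filter Topology
open scoped ContDiff

namespace Pool.Agent.H73.KG

open Pool.Agent.H84 Pool.Agent.H84.Sym Pool.Agent.H84.Sym.P2x Pool.Agent.H19.KL

/-- an orthonormal family and a vector lie in a small subspace `Sᗮ` with a basis extending the
family -/
private theorem t1m_basis (E : Type) [NormedAddCommGroup E] [InnerProductSpace ℝ E]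
    [FiniteDimensional ℝ E] (κ : Type) [Fintype κ] (e : κ → E) (he : Orthonormal ℝ e) (θ : E) :
    ∃ (S : Submodule ℝ E) (n : ℕ) (b : OrthonormalBasis (κ ⊕ Fin n) ℝ Sᗮ),
      θ ∈ Sᗮ ∧ (∀ i, ((b (Sum.inl i) : Sᗮ) : E) = e i) ∧
      Fintype.card (κ ⊕ Fin n) ≤ Fintype.card κ + 1 := by
  classical
  set f : Option κ → E := fun o => o.elim θ e with hf
  set T : Submodule ℝ E := Submodule.span ℝ (Set.range f) with hT
  have hTT : Tᗮᗮ = T := Submodule.orthogonal_orthogonal T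
  have hmem : ∀ o, f o ∈ Tᗮᗮ := by
    intro o
    rw [hTT]
    exact Submodule.subset_span ⟨o, rfl⟩
  have hθ : θ ∈ Tᗮᗮ := hmem none
  have hem : ∀ i, e i ∈ Tᗮᗮ := fun i => hmem (some i)
  have hfin : Module.finrank ℝ (Tᗮᗮ : Submodule ℝ E) ≤ Fintype.card κ + 1 := by
    rw [hTT]
    have h1 := finrank_range_le_card (R := ℝ) f
    rw [Fintype.card_option] at h1
    exact h1
  set e' : κ → (Tᗮᗮ : Submodule ℝ E) := fun i => ⟨e i, hem i⟩ with he'
  have hoe' : Orthonormal ℝ e' := by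
    rw [orthonormal_iff_ite]
    intro i j
    have := (orthonormal_iff_ite.1 he) i j
    rw [Submodule.coe_inner]
    exact this
  have hck : Fintype.card κ ≤ Module.finrank ℝ (Tᗮᗮ : Submodule ℝ E) :=
    hoe'.linearIndependent.fintype_card_le_finrank
  set n : ℕ := Module.finrank ℝ (Tᗮᗮ : Submodule ℝ E) - Fintype.card κ with hn
  have hcard : Module.finrank ℝ (Tᗮᗮ : Submodule ℝ E) = Fintype.card (κ ⊕ Fin n) := by
    rw [Fintype.card_sum, Fintype.card_fin, hn]
    omega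
  have hv : Orthonormal ℝ ((Set.range (Sum.inl : κ → κ ⊕ Fin n)).domRestrict
      (Sum.elim e' (fun _ => 0))) := by
    rw [orthonormal_iff_ite]
    rintro ⟨_, i, rfl⟩ ⟨_, j, rfl⟩
    have h1 := (orthonormal_iff_ite.1 hoe') i j
    simp only [Subtype.mk.injEq, Sum.inl.injEq]
    exact h1
  obtain ⟨b, hb⟩ := hv.exists_orthonormalBasis_extension_of_card_eq hcard
  refine ⟨Tᗮ, n, b, hθ, fun i => ?_, ?_⟩
  · rw [hb (Sum.inl i) ⟨i, rfl⟩]
    rfl
  · rw [← hcard]
    exact hfin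

theorem t1m_thm (h1 : ∀ (E : Type) [NormedAddCommGroup E] [InnerProductSpace ℝ E]
    [FiniteDimensional ℝ E] [MeasurableSpace E] [BorelSpace E], MGLStmt E) (h2 : T1PStmt) :
    T1MStmt := by
  obtain ⟨C, hC, h⟩ := h2
  refine ⟨C, hC, ?_⟩
  intro E _ _ _ _ _ U t hU hcov κ _ e he m β hm hβ θ hθ
  obtain ⟨S, n, b, hθS, hb, hcard⟩ := t1m_basis E κ e he θ
  obtain ⟨hB, -, -, -, ht3, hCv⟩ := h1 E U t hU S
  have hkey := h Sᗮ (mg S U) t hB.1 (hCv 5 hcov) (κ ⊕ Fin n) b (Sum.elim m (fun _ => 0)) β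
    (by
      rintro (i | i)
      · exact hm i
      · simpa using hβ) hβ ⟨θ, hθS⟩ (by
        have : ‖(⟨θ, hθS⟩ : Sᗮ)‖ = 1 := hθ
        exact this.le)
  rw [Fintype.sum_sum_type] at hkey
  simp only [Sum.elim_inl, Sum.elim_inr, zero_mul, Finset.sum_const_zero, add_zero] at hkey
  have e1 : ∑ i, m i * t3 U θ (e i) (e i) =
      ∑ i, m i * t3 (mg S U) ⟨θ, hθS⟩ (b (Sum.inl i)) (b (Sum.inl i)) := by
    refine Finset.sum_congr rfl fun i _ => ?_
    rw [(ht3 ⟨θ, hθS⟩ (b (Sum.inl i)) (b (Sum.inl i))).1, hb i]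
  rw [e1]
  refine hkey.trans ?_
  apply mul_le_mul_of_nonneg_left _ (by positivity)
  apply Real.sqrt_le_sqrt
  exact_mod_cast hcard

end Pool.Agent.H73.KG
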